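import Pool.Agent.Helper35.HSF.StH

set_option autoImplicit false

namespace Helper87.HSF

open Helper35.HSF Helper35.MS Helper35.PI Helper35.PI2 Helper32.CL
open scoped ContDiff Manifold Topology ENNReal BigOperators
open MeasureTheory Set Filter

/-- abstract vectors -/
theorem hsn_abs {n N : ℕ} (A : Fin n → Fin n → EE N) (w : EE N) (hw : ‖w‖ = 1)
    (hA : ∀ a b, (inner ℝ (A a b) w : ℝ) = - (if a = b then 1 else 0)) :
    ∑ a, (A a a + (1 : ℝ) • w) = ∑ a, A a a + (n : ℝ) • w ∧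
    (inner ℝ (∑ a, A a a) w : ℝ) = -n ∧
    ‖∑ a, (A a a + (1 : ℝ) • w)‖ ^ 2 = ‖∑ a, A a a‖ ^ 2 - n ^ 2 ∧
    ∑ a, ∑ b, ‖A a b + (if a = b then (1 : ℝ) else 0) • w‖ ^ 2 =
      ∑ a, ∑ b, (inner ℝ (A a b) (A a b) : ℝ) - n ∧
    0 ≤ ∑ a, ∑ b, ‖A a b + (if a = b then (1 : ℝ) else 0) • w‖ ^ 2 ∧
    ‖∑ a, (A a a + (1 : ℝ) • w)‖ ^ 2 ≤
      n * ∑ a, ∑ b, ‖A a b + (if a = b then (1 : ℝ) else 0) • w‖ ^ 2 := by
  have e1 : ∑ a, (A a a + (1 : ℝ) • w) = ∑ a, A a a + (n : ℝ) • w := by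
    rw [Finset.sum_add_distrib, Finset.sum_const, Finset.card_univ, Fintype.card_fin, one_smul,
      Nat.cast_smul_eq_nsmul]
  have e2 : (inner ℝ (∑ a, A a a) w : ℝ) = -n := by
    rw [sum_inner]
    simp only [hA, if_true, Finset.sum_neg_distrib, Finset.sum_const, Finset.card_univ,
      Fintype.card_fin, nsmul_eq_mul, mul_one]
  have q : ∀ a b, ‖A a b + (if a = b then (1 : ℝ) else 0) • w‖ ^ 2 =
      (inner ℝ (A a b) (A a b) : ℝ) - (if a = b then (1 : ℝ) else 0) := by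
    intro a b
    rw [norm_add_sq_real, inner_smul_right, hA, norm_smul, hw, real_inner_self_eq_norm_sq]
    by_cases h : a = b
    · rw [if_pos h]; norm_num; ring
    · rw [if_neg h]; norm_num
  have e4 : ∑ a, ∑ b, ‖A a b + (if a = b then (1 : ℝ) else 0) • w‖ ^ 2 =
      ∑ a, ∑ b, (inner ℝ (A a b) (A a b) : ℝ) - n := by
    simp only [q, Finset.sum_sub_distrib]
    simp
  refine ⟨e1, e2, ?_, e4, ?_, ?_⟩
  · rw [e1, norm_add_sq_real, inner_smul_right, e2, norm_smul, hw, Real.norm_eq_abs, mul_one,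
      sq_abs]
    ring
  · exact Finset.sum_nonneg fun a _ => Finset.sum_nonneg fun b _ => sq_nonneg _
  · have p1 : ‖∑ a, (A a a + (1 : ℝ) • w)‖ ≤ ∑ a, ‖A a a + (1 : ℝ) • w‖ := norm_sum_le _ _
    have p2 : ‖∑ a, (A a a + (1 : ℝ) • w)‖ ^ 2 ≤ (∑ a, ‖A a a + (1 : ℝ) • w‖) ^ 2 :=
      pow_le_pow_left₀ (norm_nonneg _) p1 2
    have p3 : (∑ a, ‖A a a + (1 : ℝ) • w‖) ^ 2 ≤ n * ∑ a, ‖A a a + (1 : ℝ) • w‖ ^ 2 := by
      have := sq_sum_le_card_mul_sum_sq (s := (Finset.univ : Finset (Fin n)))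
        (f := fun a => ‖A a a + (1 : ℝ) • w‖)
      simpa [Finset.card_univ, Fintype.card_fin] using this
    refine (p2.trans p3).trans (mul_le_mul_of_nonneg_left ?_ (Nat.cast_nonneg n))
    refine Finset.sum_le_sum fun a _ => ?_
    have := Finset.single_le_sum
      (f := fun b => ‖A a b + (if a = b then (1 : ℝ) else 0) • w‖ ^ 2)
      (fun b _ => sq_nonneg _) (Finset.mem_univ a)
    simpa using this

/-- the algebra at one point -/
theorem hsn_loc (hFR : StFR) (hNR : StNR) {n N : ℕ} (f : EE n → EE N) (x : EE n) (hLI : LI f x)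
    (hf : ‖f x‖ = 1) (h1 : ∀ i, (inner ℝ (f x) (dv1 f x i) : ℝ) = 0)
    (h2 : ∀ i j, (inner ℝ (f x) (dv2 f x i j) : ℝ) = - gram f x i j) :
    (∑ i, ∑ j, (gram f x)⁻¹ i j • sfs f x i j) = mcv f x + (n : ℝ) • f x ∧
    (inner ℝ (mcv f x) (f x) : ℝ) = -n ∧
    ‖∑ i, ∑ j, (gram f x)⁻¹ i j • sfs f x i j‖ ^ 2 = ‖mcv f x‖ ^ 2 - n ^ 2 ∧
    (∑ i, ∑ j, ∑ k, ∑ l, (gram f x)⁻¹ i k * (gram f x)⁻¹ j l *
      (inner ℝ (sfs f x i j) (sfs f x k l) : ℝ)) = nsq f x - n ∧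
    0 ≤ (∑ i, ∑ j, ∑ k, ∑ l, (gram f x)⁻¹ i k * (gram f x)⁻¹ j l *
      (inner ℝ (sfs f x i j) (sfs f x k l) : ℝ)) ∧
    ‖∑ i, ∑ j, (gram f x)⁻¹ i j • sfs f x i j‖ ^ 2 ≤
      n * (∑ i, ∑ j, ∑ k, ∑ l, (gram f x)⁻¹ i k * (gram f x)⁻¹ j l *
      (inner ℝ (sfs f x i j) (sfs f x k l) : ℝ)) := by
  obtain ⟨-, -, P, -, -, hPg, -, hV, -, hQ⟩ := hFR n N f x hLI
  obtain ⟨-, -, -, hn4, -, -, hn7, -⟩ := hNR n N f x hLI
  have hnf : nrm f x (f x) = f x := hn4 _ h1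
  have hfA : ∀ i j, (inner ℝ (f x) (sff f x i j) : ℝ) = - gram f x i j := by
    intro i j
    rw [sff, ← hn7, hnf, h2]
  -- the frame
  have hδ : ∀ a b, ∑ i, ∑ j, P i a * P j b * gram f x i j = if a = b then 1 else 0 := by
    intro a b
    have := congrFun (congrFun hPg a) b
    rw [Matrix.one_apply] at this
    rw [← this, Matrix.mul_apply]
    simp only [Matrix.mul_apply, Matrix.transpose_apply, Finset.sum_mul]
    rw [Finset.sum_comm]
    exact Finset.sum_congr rfl fun i _ => Finset.sum_congr rfl fun j _ => by ring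
  obtain ⟨A', hA'⟩ : ∃ A' : Fin n → Fin n → EE N,
      ∀ a b, A' a b = ∑ i, ∑ j, (P i a * P j b) • sff f x i j := ⟨_, fun a b => rfl⟩
  have hh' : ∀ a b, ∑ i, ∑ j, (P i a * P j b) • sfs f x i j =
      A' a b + (if a = b then (1 : ℝ) else 0) • f x := by
    intro a b
    rw [← hδ a b, Finset.sum_smul, hA']
    rw [← Finset.sum_add_distrib]
    refine Finset.sum_congr rfl fun i _ => ?_
    rw [Finset.sum_smul, ← Finset.sum_add_distrib]
    refine Finset.sum_congr rfl fun j _ => ?_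
    rw [sfs, smul_add, smul_smul]
  have hfA' : ∀ a b, (inner ℝ (A' a b) (f x) : ℝ) = - (if a = b then 1 else 0) := by
    intro a b
    rw [hA', real_inner_comm, inner_sum]
    rw [← hδ a b, ← Finset.sum_neg_distrib]
    refine Finset.sum_congr rfl fun i _ => ?_
    rw [inner_sum, ← Finset.sum_neg_distrib]
    refine Finset.sum_congr rfl fun j _ => ?_
    rw [inner_smul_right, hfA]
    ring
  have hH : mcv f x = ∑ a, A' a a := by
    rw [mcv, hV]
    exact Finset.sum_congr rfl fun a _ => (hA' a a).symm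
  have hHS : (∑ i, ∑ j, (gram f x)⁻¹ i j • sfs f x i j) =
      ∑ a, (A' a a + (1 : ℝ) • f x) := by
    rw [hV]
    refine Finset.sum_congr rfl fun a _ => ?_
    rw [hh' a a, if_pos rfl]
  have hA2 : nsq f x = ∑ a, ∑ b, (inner ℝ (A' a b) (A' a b) : ℝ) := by
    rw [nsq, hQ]
    exact Finset.sum_congr rfl fun a _ => Finset.sum_congr rfl fun b _ => by rw [hA']
  have hh2 : (∑ i, ∑ j, ∑ k, ∑ l, (gram f x)⁻¹ i k * (gram f x)⁻¹ j l *
      (inner ℝ (sfs f x i j) (sfs f x k l) : ℝ)) =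
      ∑ a, ∑ b, ‖A' a b + (if a = b then (1 : ℝ) else 0) • f x‖ ^ 2 := by
    rw [hQ]
    refine Finset.sum_congr rfl fun a _ => Finset.sum_congr rfl fun b _ => ?_
    rw [hh', real_inner_self_eq_norm_sq]
  have hAA := hsn_abs A' (f x) hf hfA'
  rw [hHS, hh2, hH, hA2]
  exact hAA

theorem hHSN (hFR : StFR) (hNR : StNR) (hI2J : StI2J) : StHSN := by
  intro n N _ M _ _ _ J F hF t ht hn q
  obtain ⟨φ, hφ⟩ : ∃ φ, φ = chartAt (EE n) q := ⟨_, rfl⟩
  obtain ⟨f, hfdef⟩ : ∃ f : EE n → EE N, f = loc (n := n) F q t := ⟨_, rfl⟩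
  obtain ⟨x, hx⟩ : ∃ x : EE n, x = φ q := ⟨_, rfl⟩
  have hfy : ∀ y, f y = F (φ.symm y) t := by
    intro y
    rw [hfdef, hφ]
    rfl
  have hsrc : q ∈ φ.source := by rw [hφ]; exact mem_chart_source _ q
  have hfx : f x = F q t := by
    rw [hfy, hx, φ.left_inv hsrc]
  have hxt : x ∈ φ.target := by rw [hx]; exact φ.map_source hsrc
  have hsm : ∀ y ∈ φ.target, ContDiffAt ℝ ∞ f y := by
    intro y hy
    have h1 := hI2J n N M J F hF q
    rw [← hφ] at h1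
    have h2 : φ.target ×ˢ J ∈ 𝓝 ((y, t) : EE n × ℝ) :=
      (φ.open_target.prod hF.op).mem_nhds ⟨hy, ht⟩
    have h3 : ContDiffAt ℝ ∞ (fun z : EE n × ℝ => F (φ.symm z.1) z.2) (y, t) :=
      (h1 (y, t) ⟨hy, ht⟩).contDiffAt h2
    have h4 : ContDiffAt ℝ ∞ (fun y : EE n => ((y, t) : EE n × ℝ)) y := by fun_prop
    have h5 := ContDiffAt.comp (f := fun y : EE n => ((y, t) : EE n × ℝ)) y h3 h4
    have h6 : f = (fun z : EE n × ℝ => F (φ.symm z.1) z.2) ∘
        (fun y : EE n => ((y, t) : EE n × ℝ)) := funext hfy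
    rw [h6]
    exact h5
  have hd : ∀ y ∈ φ.target, DifferentiableAt ℝ f y := fun y hy =>
    (hsm y hy).differentiableAt (by simp)
  have hnorm : ∀ y, (inner ℝ (f y) (f y) : ℝ) = 1 := by
    intro y
    rw [real_inner_self_eq_norm_sq, hfy, hn, one_pow]
  have hA : ∀ y ∈ φ.target, ∀ v, (inner ℝ (f y) (fderiv ℝ f y v) : ℝ) = 0 := by
    intro y hy v
    have h1 := fderiv_inner_apply ℝ (hd y hy) (hd y hy) v
    have h2 : (fun t => (inner ℝ (f t) (f t) : ℝ)) = fun _ => (1 : ℝ) := funext hnorm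
    rw [h2] at h1
    simp only [fderiv_fun_const, Pi.zero_apply, zero_apply] at h1
    rw [real_inner_comm (f y) (fderiv ℝ f y v)] at h1
    linarith
  have hB : ∀ i j, (inner ℝ (f x) (dv2 f x i j) : ℝ) = - gram f x i j := by
    intro i j
    have hdd : DifferentiableAt ℝ (fun y => fderiv ℝ f y (ee j)) x := by
      have h1 : ContDiffAt ℝ 1 (fderiv ℝ f) x := (hsm x hxt).fderiv_right (by norm_cast)
      exact (h1.differentiableAt (by norm_num)).clm_apply (differentiableAt_const _)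
    have h1 := fderiv_inner_apply ℝ (hd x hxt) hdd (ee i)
    have h2 : (fun y => (inner ℝ (f y) (fderiv ℝ f y (ee j)) : ℝ)) =ᶠ[𝓝 x] fun _ => (0 : ℝ) := by
      filter_upwards [φ.open_target.mem_nhds hxt] with y hy
      exact hA y hy _
    rw [h2.fderiv_eq] at h1
    simp only [fderiv_fun_const, Pi.zero_apply, zero_apply] at h1
    have h3 : gram f x i j = (inner ℝ (fderiv ℝ f x (ee i)) (fderiv ℝ f x (ee j)) : ℝ) := rfl
    rw [h3]
    unfold dv2
    linarith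
  have hLI : LI f x := by
    rw [hfdef, hx, hφ]
    exact hF.imm q t ht
  have key := hsn_loc hFR hNR f x hLI (by rw [hfx]; exact hn q)
    (fun i => hA x hxt _) hB
  rw [hfx, hfdef, hx, hφ] at key
  exact key

end Helper87.HSF
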