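import Pool.Agent.Helper35.HSF.StB

set_option autoImplicit false

namespace Helper87.HSF

open Helper35.HSF Helper35.MS Helper35.PI Helper35.PI2 Helper32.CL
open scoped ContDiff Manifold Topology ENNReal BigOperators
open MeasureTheory Set Filter

/-! ### Algebra: a symmetric matrix between `Q` and `P` -/

private theorem alg {n : ℕ} (K : Fin n → Fin n → ℝ) (P Q : ℝ) (hs : ∀ i j, K i j = K j i)
    (hlo : ∀ U : Fin n → ℝ, Q * ∑ i, U i ^ 2 ≤ ∑ i, ∑ j, U i * U j * K i j)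
    (hup : ∀ U : Fin n → ℝ, ∑ i, ∑ j, U i * U j * K i j ≤ P * ∑ i, U i ^ 2) :
    (∑ i, ∑ j, K i j ^ 2) ≤ (P + Q) * (∑ i, K i i) - n * (P * Q) ∧
      n * Q ≤ ∑ i, K i i ∧ ∑ i, K i i ≤ n * P := by
  classical
  have hA : (Matrix.of fun i j => (if i = j then P else 0) - K i j).PosSemidef := by
    refine Matrix.PosSemidef.of_dotProduct_mulVec_nonneg ?_ ?_
    · ext i j
      simp only [Matrix.conjTranspose_apply, Matrix.of_apply, star_trivial, hs j i]
      congr 1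
      by_cases h : i = j
      · rw [if_pos h, if_pos h.symm]
      · rw [if_neg h, if_neg (fun h' => h h'.symm)]
    · intro x
      have h := hup x
      have e : star x ⬝ᵥ ((Matrix.of fun i j => (if i = j then P else 0) - K i j).mulVec x)
          = P * ∑ i, x i ^ 2 - ∑ i, ∑ j, x i * x j * K i j := by
        simp only [dotProduct, Matrix.mulVec, Matrix.of_apply, star_trivial, Finset.mul_sum,
          ← Finset.sum_sub_distrib, Pi.star_apply]
        refine Finset.sum_congr rfl fun i _ => ?_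
        have : P * x i ^ 2 = ∑ j, (if i = j then P * x i * x j else 0) := by
          rw [Finset.sum_ite_eq]
          simp only [Finset.mem_univ, if_true]
          ring
        rw [this, ← Finset.sum_sub_distrib]
        refine Finset.sum_congr rfl fun j _ => ?_
        split_ifs <;> ring
      rw [e]
      linarith
  have hB : (Matrix.of fun i j => K i j - (if i = j then Q else 0)).PosSemidef := by
    refine Matrix.PosSemidef.of_dotProduct_mulVec_nonneg ?_ ?_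
    · ext i j
      simp only [Matrix.conjTranspose_apply, Matrix.of_apply, star_trivial, hs j i]
      congr 1
      by_cases h : i = j
      · rw [if_pos h, if_pos h.symm]
      · rw [if_neg h, if_neg (fun h' => h h'.symm)]
    · intro x
      have h := hlo x
      have e : star x ⬝ᵥ ((Matrix.of fun i j => K i j - (if i = j then Q else 0)).mulVec x)
          = (∑ i, ∑ j, x i * x j * K i j) - Q * ∑ i, x i ^ 2 := by
        simp only [dotProduct, Matrix.mulVec, Matrix.of_apply, star_trivial, Finset.mul_sum,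
          ← Finset.sum_sub_distrib, Pi.star_apply]
        refine Finset.sum_congr rfl fun i _ => ?_
        have : Q * x i ^ 2 = ∑ j, (if i = j then Q * x i * x j else 0) := by
          rw [Finset.sum_ite_eq]
          simp only [Finset.mem_univ, if_true]
          ring
        rw [this, ← Finset.sum_sub_distrib]
        refine Finset.sum_congr rfl fun j _ => ?_
        split_ifs <;> ring
      rw [e]
      linarith
  have hdi : ∀ i, Q ≤ K i i ∧ K i i ≤ P := by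
    intro i
    have e1 : ∑ k, (Pi.single i (1 : ℝ) : Fin n → ℝ) k ^ 2 = 1 := by
      rw [Finset.sum_eq_single i]
      · simp
      · intro b _ hb; simp [hb]
      · intro h; exact absurd (Finset.mem_univ i) h
    have e2 : ∑ a, ∑ b, (Pi.single i (1 : ℝ) : Fin n → ℝ) a * (Pi.single i (1 : ℝ) : Fin n → ℝ) b
        * K a b = K i i := by
      rw [Finset.sum_eq_single i]
      · rw [Finset.sum_eq_single i]
        · simp
        · intro b _ hb; simp [hb]
        · intro h; exact absurd (Finset.mem_univ i) h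
      · intro a _ ha; simp [Pi.single_apply, ha]
      · intro h; exact absurd (Finset.mem_univ i) h
    have h1 := hlo (Pi.single i 1)
    have h2 := hup (Pi.single i 1)
    rw [e1, e2] at h1 h2
    exact ⟨by linarith, by linarith⟩
  refine ⟨?_, ?_, ?_⟩
  · have h := (hA.hadamard hB).dotProduct_mulVec_nonneg (fun _ => 1)
    have e : star (fun _ : Fin n => (1 : ℝ)) ⬝ᵥ
        ((Matrix.hadamard (Matrix.of fun i j => (if i = j then P else 0) - K i j)
          (Matrix.of fun i j => K i j - (if i = j then Q else 0))).mulVec fun _ => 1)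
        = (P + Q) * (∑ i, K i i) - n * (P * Q) - ∑ i, ∑ j, K i j ^ 2 := by
      simp only [dotProduct, Matrix.mulVec, Matrix.hadamard_apply, Matrix.of_apply,
        Pi.star_apply, star_trivial, one_mul, mul_one]
      have e1 : (n : ℝ) * (P * Q) = ∑ i : Fin n, P * Q := by simp
      rw [e1, Finset.mul_sum, ← Finset.sum_sub_distrib, ← Finset.sum_sub_distrib]
      refine Finset.sum_congr rfl fun i _ => ?_
      have e2 : (P + Q) * K i i - P * Q
          = ∑ j, (if i = j then (P + Q) * K i j - P * Q else 0) := by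
        rw [Finset.sum_ite_eq]
        simp only [Finset.mem_univ, if_true]
      rw [e2, ← Finset.sum_sub_distrib]
      refine Finset.sum_congr rfl fun j _ => ?_
      split_ifs <;> ring
    rw [e] at h
    linarith
  · have : ∑ i : Fin n, Q ≤ ∑ i, K i i := Finset.sum_le_sum fun i _ => (hdi i).1
    simpa using this
  · have : ∑ i, K i i ≤ ∑ i : Fin n, P := Finset.sum_le_sum fun i _ => (hdi i).2
    simpa using this

/-! ### Negation of jets -/

section Neg

variable {n : ℕ} {V : Type} [NormedAddCommGroup V] [NormedSpace ℝ V]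

private theorem jg_neg (φ : EE n × ℝ → V) (z : EE n × ℝ) (k : Fin n) :
    jg (fun z => -φ z) z k = -jg φ z k := by
  unfold jg
  rw [fderiv_fun_neg]
  rfl

private theorem jh_neg (φ : EE n × ℝ → V) (z : EE n × ℝ) :
    jh (fun z => -φ z) z = -jh φ z := by
  unfold jh jgg jt
  have h : ∀ j, (fun z' : EE n × ℝ => jg (fun z => -φ z) z' j) = fun z' => -jg φ z' j := by
    intro j; funext z'; exact jg_neg φ z' j
  simp only [h]
  simp only [jg_neg]
  rw [fderiv_fun_neg, Finset.sum_neg_distrib]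
  simp only [neg_apply]
  abel

end Neg

/-! ### Main part -/

section Main

variable {n : ℕ} {M : Type} [TopologicalSpace M] [ChartedSpace (EE n) M]

private theorem sum_ee (V : Fin n → ℝ) (j : Fin n) : (∑ i, V i • (ee i : EE n)) j = V j := by
  simp [ee, Pi.single_apply]

private theorem cen1 {F ν : M → ℝ → EE (n + 2)} {x₀ : M} {t₀ : ℝ}
    {L : EE n →ₗᵢ[ℝ] EE (n + 2)} {u : EE n × ℝ → EE (n + 2)} {θ : EE n × ℝ → M}
    (g : GCh n F x₀ t₀ L u θ) (V : Fin n → ℝ) (hV : ∑ i, V i ^ 2 = 1) :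
    ∑ i, ∑ j, V i * V j * inner ℝ (jgg u (0, t₀) i j) (ν x₀ t₀) ∈ ZS n F ν x₀ t₀ := by
  obtain ⟨w, hw⟩ : ∃ w : EE n, w = ∑ i, V i • (ee i : EE n) := ⟨_, rfl⟩
  have hLw : L w ∈ TS (n := n) F x₀ t₀ := by
    rw [← g.rg]
    exact ⟨w, rfl⟩
  obtain ⟨c, hc⟩ := (Submodule.mem_span_range_iff_exists_fun ℝ).1 hLw
  have hc' : tv F x₀ t₀ c = L w := hc
  obtain ⟨U, hU1, hU2⟩ := g.fs' c
  have hUV : U = V := by
    have h1 : L (∑ i, U i • (ee i : EE n)) = L w := by
      rw [← hc', hU1, map_sum]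
      simp only [map_smul]
    have h2 := L.injective h1
    funext j
    rw [← sum_ee U j, h2, hw, sum_ee V j]
  rw [hUV] at hU2
  refine Or.inr ⟨c, ?_, ?_⟩
  · unfold gn
    rw [hc', L.norm_map, EuclideanSpace.norm_sq_eq, ← hV]
    refine Finset.sum_congr rfl fun i _ => ?_
    rw [hw, sum_ee V i, Real.norm_eq_abs, sq_abs]
  · unfold hn
    rw [hU2, sum_inner]
    refine Finset.sum_congr rfl fun i _ => ?_
    rw [sum_inner]
    refine Finset.sum_congr rfl fun j _ => ?_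
    rw [real_inner_smul_left]

private theorem cen {F ν : M → ℝ → EE (n + 2)} {x₀ : M} {t₀ : ℝ}
    {L : EE n →ₗᵢ[ℝ] EE (n + 2)} {u : EE n × ℝ → EE (n + 2)} {θ : EE n × ℝ → M}
    (g : GCh n F x₀ t₀ L u θ) {P Q : ℝ} (hb : ∀ z ∈ ZS n F ν x₀ t₀, Q ≤ z ∧ z ≤ P)
    (U : Fin n → ℝ) :
    Q * ∑ i, U i ^ 2 ≤ ∑ i, ∑ j, U i * U j * inner ℝ (jgg u (0, t₀) i j) (ν x₀ t₀) ∧
    ∑ i, ∑ j, U i * U j * inner ℝ (jgg u (0, t₀) i j) (ν x₀ t₀) ≤ P * ∑ i, U i ^ 2 := by
  rcases (Finset.sum_nonneg fun i (_ : i ∈ Finset.univ) => sq_nonneg (U i)).eq_or_lt with h0 | h0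
  · have hU : ∀ i, U i = 0 := by
      intro i
      have h := (Finset.sum_eq_zero_iff_of_nonneg
        (fun i (_ : i ∈ Finset.univ) => sq_nonneg (U i))).1 h0.symm i (Finset.mem_univ i)
      exact pow_eq_zero_iff (two_ne_zero) |>.1 h
    simp [hU]
  · obtain ⟨S, hS⟩ : ∃ S : ℝ, S = ∑ i, U i ^ 2 := ⟨_, rfl⟩
    rw [← hS] at h0 ⊢
    obtain ⟨r, hr⟩ : ∃ r : ℝ, r ^ 2 * S = 1 := by
      refine ⟨1 / Real.sqrt S, ?_⟩
      rw [div_pow, one_pow, Real.sq_sqrt h0.le]
      field_simp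
    have h1 : ∑ i, (r * U i) ^ 2 = 1 := by
      rw [← hr, hS, Finset.mul_sum]
      exact Finset.sum_congr rfl fun i _ => by ring
    have h2 := hb _ (cen1 (ν := ν) g (fun i => r * U i) h1)
    have h3 : ∑ i, ∑ j, r * U i * (r * U j) * inner ℝ (jgg u (0, t₀) i j) (ν x₀ t₀)
        = r ^ 2 * ∑ i, ∑ j, U i * U j * inner ℝ (jgg u (0, t₀) i j) (ν x₀ t₀) := by
      rw [Finset.mul_sum]
      refine Finset.sum_congr rfl fun i _ => ?_
      rw [Finset.mul_sum]
      exact Finset.sum_congr rfl fun j _ => by ring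
    rw [h3] at h2
    obtain ⟨q, hq⟩ : ∃ q : ℝ, q = ∑ i, ∑ j, U i * U j *
      inner ℝ (jgg u (0, t₀) i j) (ν x₀ t₀) := ⟨_, rfl⟩
    rw [← hq] at h2 ⊢
    have h4 := mul_le_mul_of_nonneg_right h2.1 h0.le
    have h5 := mul_le_mul_of_nonneg_right h2.2 h0.le
    have h6 : r ^ 2 * q * S = q := by
      calc r ^ 2 * q * S = (r ^ 2 * S) * q := by ring
        _ = q := by rw [hr, one_mul]
    rw [h6] at h4 h5
    exact ⟨h4, h5⟩

private theorem bar [IsManifold (𝓡 n) ∞ M] (hSL1 : StSL1) (hSL2 : StSL2) {J : Set ℝ}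
    {F ν : M → ℝ → EE (n + 2)} (h : HFl n J F ν) {x₀ : M} {t₀ : ℝ} (ht : t₀ ∈ J)
    {L : EE n →ₗᵢ[ℝ] EE (n + 2)} {u : EE n × ℝ → EE (n + 2)} {θ : EE n × ℝ → M}
    (g : GCh n F x₀ t₀ L u θ)
    (hm : ContDiffAt ℝ ∞ (fun z : EE n × ℝ => ν (θ z) z.2) (0, t₀)) {P Q : ℝ}
    (hP : P ∈ ZS n F ν x₀ t₀) (hQP : Q < P) (hb : ∀ z ∈ ZS n F ν x₀ t₀, Q ≤ z ∧ z ≤ P) :
    ∃ β : EE n × ℝ → ℝ, ContDiffAt ℝ 2 β (0, t₀) ∧ β (0, t₀) = P ∧
      (∀ᶠ z in 𝓝 ((0 : EE n), t₀), β z ∈ ZS n F ν (θ z) z.2) ∧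
      jh β (0, t₀) ≤ h2N n F x₀ t₀ * P + 2 * Hs n F ν x₀ t₀ / rr n t₀
        - 2 / (P - Q) * ∑ k, jg β (0, t₀) k ^ 2 := by
  rcases hP with ⟨y, hy, hyP⟩ | ⟨c, hc, hcP⟩
  · exact hSL2 n M J F ν h x₀ t₀ ht L u θ g hm y P Q hy hyP hQP hb
  · exact hSL1 n M J F ν h x₀ t₀ ht L u θ g hm c P Q hc hcP hQP hb

end Main

theorem hSLB (hSL1 : StSL1) (hSL2 : StSL2) (hNEG : StNEG) (hNUJ : StNUJ) (hGCH : StGCH)
    (hC1 : StC1) : StSLB := by
  intro n M _ _ _ J F ν h x₀ t₀ ht P hP Q hQ hQP hb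
  obtain ⟨L, hL⟩ := hC1 n (n + 2) _ (h.mcf.imm x₀ t₀ ht)
  obtain ⟨u, θ, g, -, hV⟩ := hGCH n (n + 2) M J F h.mcf x₀ t₀ ht L hL
  have hm := (hV ν h.sν).1
  obtain ⟨-, hs, -, -, hH, hh, -, -⟩ := hNUJ n M J F ν h x₀ t₀ ht L u θ g hm _ rfl
  obtain ⟨a1, a2, a3⟩ := alg _ P Q hs (fun U => (cen (ν := ν) g hb U).1)
    (fun U => (cen (ν := ν) g hb U).2)
  obtain ⟨β, b1, b2, b3, b4⟩ := bar hSL1 hSL2 h ht g hm hP hQP hb
  obtain ⟨hN1, -, hN3⟩ := hNEG n M F ν (fun q t => -ν q t) rfl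
  have h' := hN1 J h
  have hm' : ContDiffAt ℝ ∞ (fun z : EE n × ℝ => -ν (θ z) z.2) (0, t₀) := hm.neg
  obtain ⟨hZ, hHs, -⟩ := hN3 x₀ t₀
  have hb' : ∀ z ∈ ZS n F (fun q t => -ν q t) x₀ t₀, -P ≤ z ∧ z ≤ -Q := by
    rw [hZ]
    rintro _ ⟨w, hw, rfl⟩
    obtain ⟨h1, h2⟩ := hb w hw
    exact ⟨neg_le_neg h2, neg_le_neg h1⟩
  obtain ⟨β', c1, c2, c3, c4⟩ := bar hSL1 hSL2 h' ht g hm' (P := -Q) (Q := -P)
    (by rw [hZ]; exact ⟨Q, hQ, rfl⟩) (neg_lt_neg hQP) hb'
  refine ⟨?_, ?_, ?_, θ, β, fun z => -β' z, g.pt, g.ct, b1, b2, c1.neg, ?_, ?_, b4, ?_⟩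
  · rw [hh, hH]; exact a1
  · rw [hH]; exact a2
  · rw [hH]; exact a3
  · simp only [c2, neg_neg]
  · filter_upwards [b3, c3] with z hz1 hz2
    refine ⟨hz1, ?_⟩
    rw [(hN3 (θ z) z.2).1] at hz2
    obtain ⟨w, hw, hw'⟩ := hz2
    have : -β' z = w := by rw [← hw', neg_neg]
    simpa only [this] using hw
  · rw [jh_neg]
    have e : ∑ k, jg (fun z => -β' z) (0, t₀) k ^ 2 = ∑ k, jg β' (0, t₀) k ^ 2 :=
      Finset.sum_congr rfl fun k _ => by rw [jg_neg, neg_sq]
    rw [e]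
    rw [hHs] at c4
    have e1 : -Q - -P = P - Q := by ring
    rw [e1] at c4
    have e2 : 2 * -Hs n F ν x₀ t₀ / rr n t₀ = -(2 * Hs n F ν x₀ t₀ / rr n t₀) := by ring
    rw [e2] at c4
    linarith

end Helper87.HSF
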